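import Mathlib

set_option autoImplicit false
set_option linter.unusedVariables false
set_option linter.unusedSectionVars false

universe u v

open Polynomial

namespace Pool.Agent.W191.WT

section cyc

theorem sum_cyc {M : Type*} [AddCommGroup M] (f : ℕ → M) (p : ℕ) (h : f p = f 0) :
    ∑ i ∈ Finset.range p, f (i + 1) = ∑ i ∈ Finset.range p, f i := by
  have h1 := Finset.sum_range_succ' f p
  have h2 := Finset.sum_range_succ f p
  rw [h1, h] at h2
  exact add_right_cancel h2

theorem prod_cyc {M : Type*} [CommMonoidWithZero M] [IsCancelMulZero M] (f : ℕ → M) (p : ℕ)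
    (h : f p = f 0) (h0 : f 0 ≠ 0) :
    ∏ i ∈ Finset.range p, f (i + 1) = ∏ i ∈ Finset.range p, f i := by
  have h1 := Finset.prod_range_succ' f p
  have h2 := Finset.prod_range_succ f p
  rw [h1, h] at h2
  exact mul_right_cancel₀ h0 h2

end cyc

section fld

variable {k : Type u} {K : Type v} [Field k] [Field K] [Algebra k K] (s : K ≃ₐ[k] K) (p : ℕ)

theorem pow_succ_apply' (i : ℕ) (x : K) : (s ^ (i + 1)) x = s ((s ^ i) x) := by
  rw [pow_succ']; rfl

/-- traces are fixed -/
theorem tr_fixed (hs : s ^ p = 1) (w : K) :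
    s (∑ i ∈ Finset.range p, (s ^ i) w) = ∑ i ∈ Finset.range p, (s ^ i) w := by
  rw [map_sum]
  simp only [← pow_succ_apply']
  exact sum_cyc (fun i => (s ^ i) w) p (by simp [hs])

theorem exists_tr (hp : p.Prime) (hs : s ^ p = 1) (h1 : s ≠ 1) :
    ∃ w : K, ∑ i ∈ Finset.range p, (s ^ i) w ≠ 0 := by
  by_contra hcon
  push Not at hcon
  have hord : orderOf s = p := by
    rcases (Nat.dvd_prime hp).1 (orderOf_dvd_of_pow_eq_one hs) with h | h
    · exact absurd (orderOf_eq_one_iff.1 h) h1
    · exact h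
  have hinj : Function.Injective (fun i : Fin p => (((s ^ (i : ℕ) : K ≃ₐ[k] K) : K ≃* K) : K →* K)) := by
    intro i j hij
    have h2 : s ^ (i : ℕ) = s ^ (j : ℕ) := by
      ext x
      exact DFunLike.congr_fun hij x
    have h3 := pow_inj_mod.1 h2
    rw [hord, Nat.mod_eq_of_lt i.2, Nat.mod_eq_of_lt j.2] at h3
    exact Fin.ext h3
  have hli := (linearIndependent_monoidHom K K).comp _ hinj
  have := Fintype.linearIndependent_iff.1 hli (fun _ => 1) (by
    ext x
    simp only [Function.comp, one_smul, Finset.sum_apply, Pi.zero_apply]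
    have := hcon x
    rw [Finset.sum_range] at this
    exact this) ⟨0, hp.pos⟩
  exact one_ne_zero this

/-- additive Hilbert 90 -/
theorem exists_as (hp : p.Prime) [CharP K p] (hs : s ^ p = 1) (h1 : s ≠ 1) :
    ∃ z : K, s z = z + 1 := by
  obtain ⟨w, hw⟩ := exists_tr s p hp hs h1
  set T := ∑ i ∈ Finset.range p, (s ^ i) w with hT
  have hTs : s T = T := tr_fixed s p hs w
  have hA : s (∑ i ∈ Finset.range p, (i : K) * (s ^ i) w) + T =
      ∑ i ∈ Finset.range p, (i : K) * (s ^ i) w := by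
    rw [← hTs, hT, map_sum, map_sum, ← Finset.sum_add_distrib]
    have := sum_cyc (fun i => (i : K) * (s ^ i) w) p (by simp)
    rw [← this]
    refine Finset.sum_congr rfl fun i _ => ?_
    rw [pow_succ_apply', map_mul, map_natCast, Nat.cast_add, Nat.cast_one]
    ring
  refine ⟨-(∑ i ∈ Finset.range p, (i : K) * (s ^ i) w) / T, ?_⟩
  rw [map_div₀, map_neg, hTs]
  field_simp
  linear_combination -hA

theorem pow_as (z : K) (hz : s z = z + 1) (i : ℕ) : (s ^ i) z = z + i := by
  induction i with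
  | zero => simp
  | succ i ih => rw [pow_succ_apply', ih, map_add, hz, map_natCast, Nat.cast_add, Nat.cast_one]; ring

theorem mem_of_fixed (hp : p.Prime) [CharP K p] (hs : s ^ p = 1) (z : K) (hz : s z = z + 1)
    (K1 : IntermediateField k K) (hz1 : z ∈ K1) (hf : ∀ y : K, s y = y → y ∈ K1) (y : K) :
    y ∈ K1 := by
  let zz : K1 := ⟨z, hz1⟩
  let g : K1[X] := ∏ i ∈ Finset.Ico 1 p, (X - C (zz + (i : K1)))
  have hg : ∀ w : K, aeval w g = ∏ i ∈ Finset.Ico 1 p, (w - (z + i)) := by
    intro w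
    simp only [g, map_prod, map_sub, aeval_X, aeval_C, map_add, map_natCast]
    rfl
  have h0 : ∀ i ∈ Finset.range p, i ≠ 0 → aeval (z + (i : K)) g * (s ^ i) y = 0 := by
    intro i hi hi0
    rw [hg]
    rw [Finset.prod_eq_zero (i := i) (Finset.mem_Ico.2 ⟨Nat.one_le_iff_ne_zero.2 hi0,
      Finset.mem_range.1 hi⟩) (by ring)]
    ring
  have hsum : ∑ i ∈ Finset.range p, aeval (z + (i : K)) g * (s ^ i) y = aeval z g * y := by
    rw [Finset.sum_eq_single 0 h0 (fun h => absurd (Finset.mem_range.2 hp.pos) h)]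
    simp
  have hne : aeval z g ≠ 0 := by
    rw [hg, Finset.prod_ne_zero_iff]
    intro i hi h
    have h2 : (i : K) = 0 := by linear_combination -h
    rw [CharP.cast_eq_zero_iff K p] at h2
    have h3 := Finset.mem_Ico.1 hi
    exact absurd (Nat.le_of_dvd (by omega) h2) (by omega)
  have hmem : ∑ i ∈ Finset.range p, aeval (z + (i : K)) g * (s ^ i) y ∈ K1 := by
    have : ∑ i ∈ Finset.range p, aeval (z + (i : K)) g * (s ^ i) y =
        ∑ j ∈ Finset.range (g.natDegree + 1), (g.coeff j : K) *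
          ∑ i ∈ Finset.range p, (s ^ i) (z ^ j * y) := by
      simp only [Finset.mul_sum]
      rw [Finset.sum_comm]
      refine Finset.sum_congr rfl fun i _ => ?_
      rw [aeval_eq_sum_range, Finset.sum_mul]
      refine Finset.sum_congr rfl fun j _ => ?_
      rw [map_mul, map_pow, pow_as s z hz, Algebra.smul_def, mul_assoc]
      rfl
    rw [this]
    exact sum_mem fun j _ => mul_mem (g.coeff j).2 (hf _ (tr_fixed s p hs _))
  rw [hsum] at hmem
  have hz2 : aeval z g ∈ K1 := by
    rw [hg]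
    exact prod_mem fun i _ => sub_mem hz1 (add_mem hz1 (natCast_mem _ _))
  have := mul_mem (inv_mem hz2) hmem
  rwa [← mul_assoc, inv_mul_cancel₀ hne, one_mul] at this

end fld

section rng

variable {k : Type u} {A : Type v} [Field k] [CommRing A] [IsDomain A] [Algebra k A]
  (σ : A ≃ₐ[k] A) (p : ℕ)

/-- The characteristic polynomial. -/
noncomputable def cp (a : A) : A[X] := ∏ i ∈ Finset.range p, (X - C ((σ ^ i) a))

theorem cp_monic (a : A) : (cp σ p a).Monic := monic_prod_of_monic _ _ fun i _ => monic_X_sub_C _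

theorem cp_fixed (hσ : σ ^ p = 1) (a : A) :
    (cp σ p a).map (σ : A →+* A) = cp σ p a := by
  unfold cp
  rw [Polynomial.map_prod]
  simp only [Polynomial.map_sub, map_X, map_C]
  have : ∀ i : ℕ, (σ : A →+* A) ((σ ^ i) a) = (σ ^ (i + 1)) a := by
    intro i; rw [pow_succ']; rfl
  simp only [this]
  exact prod_cyc (fun i => X - C ((σ ^ i) a)) p (by simp [hσ]) (X_sub_C_ne_zero _)

theorem cp_coeff (hσ : σ ^ p = 1) (a : A) (j : ℕ) : σ ((cp σ p a).coeff j) = (cp σ p a).coeff j := by
  conv_rhs => rw [← cp_fixed σ p hσ a, coeff_map]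
  rfl

theorem cp_root (hp : 0 < p) (a : A) : (cp σ p a).eval a = 0 := by
  unfold cp
  rw [eval_prod]
  exact Finset.prod_eq_zero (Finset.mem_range.2 hp) (by simp)

theorem exists_S (hp : 0 < p) (hσ : σ ^ p = 1) [Algebra.FiniteType k A] :
    ∃ S : Finset A, (∀ a ∈ S, σ a = a ∧ a ≠ 0) ∧
      ∀ a : A, IsIntegral (Algebra.adjoin k (S : Set A)) a := by
  classical
  obtain ⟨t, ht⟩ := (Algebra.FiniteType.out : (⊤ : Subalgebra k A).FG)
  refine ⟨t.biUnion fun a => (cp σ p a).coeffs, ?_, ?_⟩
  · intro a ha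
    obtain ⟨b, hb, hab⟩ := Finset.mem_biUnion.1 ha
    obtain ⟨n, hn, rfl⟩ := Polynomial.mem_coeffs_iff.1 hab
    exact ⟨cp_coeff σ p hσ b n, mem_support_iff.1 hn⟩
  · intro a
    set S := t.biUnion fun a => (cp σ p a).coeffs
    have ha : a ∈ Algebra.adjoin k (t : Set A) := by rw [ht]; trivial
    induction ha using Algebra.adjoin_induction with
    | mem b hb =>
      have hl : cp σ p b ∈ Polynomial.lifts (algebraMap (Algebra.adjoin k (S : Set A)) A) := by
        rw [Polynomial.lifts_iff_coeff_lifts]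
        intro n
        by_cases hn : (cp σ p b).coeff n = 0
        · rw [hn]; exact ⟨0, map_zero _⟩
        · refine ⟨⟨_, Algebra.subset_adjoin (Finset.mem_coe.2 (Finset.mem_biUnion.2
            ⟨b, hb, Polynomial.mem_coeffs_iff.2 ⟨n, mem_support_iff.2 hn, rfl⟩⟩))⟩, rfl⟩
      obtain ⟨q, hq, -, hqm⟩ := Polynomial.lifts_and_natDegree_eq_and_monic hl (cp_monic σ p b)
      refine ⟨q, hqm, ?_⟩
      rw [← Polynomial.eval_map, hq]
      exact cp_root σ p hp b
    | algebraMap r => exact isIntegral_algebraMap (x := algebraMap k _ r)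
    | add x y _ _ hx hy => exact hx.add hy
    | mul x y _ _ hx hy => exact hx.mul hy

end rng

end Pool.Agent.W191.WT
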