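import Pool.Agent.W558.WT.Stms
import Pool.Agent.W191.WT.FacA

set_option autoImplicit false
set_option linter.unusedVariables false
set_option linter.unusedSectionVars false

universe u

open Polynomial Pool.Agent.W558

namespace Pool.Agent.W191.WT

theorem main : WT_fac.{u} := by
  intro p _ k A K _ _ _ _ _ _ _ _ _ _ _ _ σ s hs hσ ⟨iso⟩
  have hp : p.Prime := Fact.out
  have hinjA : Function.Injective (algebraMap A K) := IsFractionRing.injective A K
  have hpow : ∀ (i : ℕ) (a : A), (s ^ i) (algebraMap A K a) = algebraMap A K ((σ ^ i) a) := by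
    intro i
    induction i with
    | zero => intro a; simp
    | succ i ih =>
      intro a
      rw [pow_succ, pow_succ]
      exact (congrArg (s ^ i) (hs a)).trans (ih (σ a))
  have hsp : s ^ p = 1 := by
    ext y
    obtain ⟨a, b, hb, rfl⟩ := IsFractionRing.div_surjective (A := A) y
    rw [map_div₀, hpow, hpow, hσ]
    rfl
  -- the embedding of the fractions of the invariants
  let j0 : fixA σ →ₐ[k] K := (IsScalarTower.toAlgHom k A K).comp (fixA σ).val
  have hj0 : Function.Injective j0 := hinjA.comp Subtype.val_injective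
  let j : FractionRing (fixA σ) →ₐ[k] K := IsFractionRing.liftAlgHom (g := j0) hj0
  have hj : ∀ a : fixA σ, j (algebraMap _ _ a) = algebraMap A K a := fun a => by
    simp only [j, IsFractionRing.liftAlgHom_apply, IsFractionRing.lift_algebraMap]
    rfl
  let Ψ : FractionRing (MvPolynomial (Fin 2) k) →ₐ[k] K := j.comp (iso.symm : _ →ₐ[k] _)
  let x : Fin 2 → K := fun c => Ψ (algebraMap (MvPolynomial (Fin 2) k)
    (FractionRing (MvPolynomial (Fin 2) k)) (MvPolynomial.X c))
  have hx : ∀ F : MvPolynomial (Fin 2) k, MvPolynomial.aeval x F = Ψ (algebraMap _ _ F) := by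
    intro F
    have : MvPolynomial.aeval x = Ψ.comp (IsScalarTower.toAlgHom k (MvPolynomial (Fin 2) k)
        (FractionRing (MvPolynomial (Fin 2) k))) := by
      apply MvPolynomial.algHom_ext
      intro i
      rw [MvPolynomial.aeval_X]
      rfl
    rw [this]
    rfl
  have hxi : AlgebraicIndependent k x := by
    rw [AlgebraicIndependent]
    intro F G hFG
    rw [hx, hx] at hFG
    exact IsFractionRing.injective (MvPolynomial (Fin 2) k) (FractionRing (MvPolynomial (Fin 2) k))
      ((RingHom.injective (Ψ : _ →+* K)) hFG)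
  have hjs : ∀ y, s (j y) = j y := by
    intro y
    obtain ⟨a, b, hb, rfl⟩ := IsFractionRing.div_surjective (A := fixA σ) y
    rw [map_div₀, map_div₀, hj, hj, hs, hs]
    have h1 : ∀ c : fixA σ, σ (c : A) = c := fun c => c.2
    rw [h1, h1]
  have hfix : ∀ y : K, s y = y → ∃ F H : MvPolynomial (Fin 2) k, H ≠ 0 ∧
      y = MvPolynomial.aeval x F / MvPolynomial.aeval x H := by
    intro y hy
    have hy2 : ∃ w, j w = y := by
      obtain ⟨a, b, hb, rfl⟩ := IsFractionRing.div_surjective (A := A) y
      have hb0 : b ≠ 0 := nonZeroDivisors.ne_zero hb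
      set N := ∏ i ∈ Finset.range p, (σ ^ i) b with hN
      have hN0 : N ≠ 0 := Finset.prod_ne_zero_iff.2 fun i _ h =>
        hb0 ((map_eq_zero_iff _ (σ ^ i).injective).1 h)
      have hσN : σ N = N := by
        rw [hN, map_prod]
        have : ∀ i : ℕ, σ ((σ ^ i) b) = (σ ^ (i + 1)) b := by
          intro i; rw [pow_succ']; rfl
        simp only [this]
        exact prod_cyc (fun i => (σ ^ i) b) p (by simp [hσ]) (by simpa using hb0)
      have hdiv : ∃ b', N = b * b' := by
        refine ⟨∏ i ∈ Finset.range (p - 1), (σ ^ (i + 1)) b, ?_⟩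
        have : p = p - 1 + 1 := by have := hp.pos; omega
        rw [hN]
        conv_lhs => rw [this]
        rw [Finset.prod_range_succ']
        simp [mul_comm]
      obtain ⟨b', hb'⟩ := hdiv
      have hN0' : algebraMap A K N ≠ 0 := (map_ne_zero_iff _ hinjA).2 hN0
      have hb0' : algebraMap A K b ≠ 0 := (map_ne_zero_iff _ hinjA).2 hb0
      have hy3 : algebraMap A K a / algebraMap A K b = algebraMap A K (a * b') / algebraMap A K N := by
        rw [div_eq_div_iff hb0' hN0', ← map_mul, ← map_mul, hb']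
        ring_nf
      rw [hy3] at hy ⊢
      have hab : σ (a * b') = a * b' := by
        rw [map_div₀, hs, hs, hσN] at hy
        exact hinjA ((div_left_inj' hN0').1 hy)
      refine ⟨algebraMap _ _ (⟨a * b', hab⟩ : fixA σ) / algebraMap _ _ (⟨N, hσN⟩ : fixA σ), ?_⟩
      rw [map_div₀, hj, hj]
    obtain ⟨w, rfl⟩ := hy2
    obtain ⟨F, H, hH, hFH⟩ := IsFractionRing.div_surjective (A := MvPolynomial (Fin 2) k) (iso w)
    refine ⟨F, H, nonZeroDivisors.ne_zero hH, ?_⟩
    rw [hx, hx, ← map_div₀, hFH]
    change _ = j (iso.symm (iso w))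
    rw [AlgEquiv.symm_apply_apply]
  obtain ⟨S, hS1, hS2⟩ := exists_S (k := k) σ p hp.pos hσ
  have hS3 : ∀ a ∈ S, σ a = a ∧ ∃ F H : MvPolynomial (Fin 2) k, F ≠ 0 ∧ H ≠ 0 ∧
      algebraMap A K a = MvPolynomial.aeval x F / MvPolynomial.aeval x H := by
    intro a ha
    obtain ⟨h1, h2⟩ := hS1 a ha
    obtain ⟨F, H, hH, hFH⟩ := hfix (algebraMap A K a) (by rw [hs, h1])
    refine ⟨h1, F, H, ?_, hH, hFH⟩
    rintro rfl
    rw [map_zero, zero_div] at hFH
    exact h2 ((map_eq_zero_iff _ hinjA).1 hFH)
  have hmem : ∀ (z : K) (y : K), s y = y →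
      y ∈ IntermediateField.adjoin k (insert z (Set.range x)) := by
    intro z y hy
    obtain ⟨F, H, hH, rfl⟩ := hfix y hy
    have : ∀ G : MvPolynomial (Fin 2) k, MvPolynomial.aeval x G ∈
        IntermediateField.adjoin k (insert z (Set.range x)) := by
      intro G
      induction G using MvPolynomial.induction_on with
      | C a => rw [MvPolynomial.aeval_C]; exact IntermediateField.algebraMap_mem _ _
      | add p q hp hq => rw [map_add]; exact add_mem hp hq
      | mul_X p n hp =>
        rw [map_mul, MvPolynomial.aeval_X]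
        exact mul_mem hp (IntermediateField.subset_adjoin _ _ (Set.mem_insert_of_mem _ ⟨n, rfl⟩))
    exact div_mem (this F) (this H)
  by_cases h1 : s = 1
  · refine ⟨x, 0, 0, 0, 1, S, hxi, fun c => hjs _, by simp, fun _ => rfl, one_ne_zero, ?_, ?_, hS3, hS2⟩
    · simp [hp.ne_zero]
    · rw [eq_top_iff]
      intro y _
      exact hmem 0 y (by rw [h1]; rfl)
  · obtain ⟨z, hz⟩ := exists_as s p hp hsp h1
    have hz2 : s (z ^ p - z) = z ^ p - z := by
      rw [map_sub, map_pow, hz, add_pow_char, one_pow]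
      ring
    obtain ⟨P, Q, hQ, hPQ⟩ := hfix _ hz2
    refine ⟨x, z, 1, P, Q, S, hxi, fun c => hjs _, by rw [hz, map_one],
      fun h => absurd h one_ne_zero, hQ, hPQ, ?_, hS3, hS2⟩
    rw [eq_top_iff]
    intro y _
    exact mem_of_fixed s p hp hsp z hz _
      (IntermediateField.subset_adjoin _ _ (Set.mem_insert _ _)) (hmem z) y

end Pool.Agent.W191.WT
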